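import Pool.Agent.P.MP_9d1108_nt.Sw.Fin

/-! The integers with a large smooth part are negligible in every short window. -/

set_option autoImplicit false

namespace Pool.Agent.P.MP_9d1108_nt.Sc

open Finset Filter Pool.Agent.P.MP_9d1108_nt.Sw

theorem zero2 {c C Y0 M l : ℝ} (h : Lg c C Y0 M l) {t W : ℝ} (t0 : 0 < t) (t1 : t ≤ M * l ^ 2)
    (W1 : W ≤ 2 * l ^ 5) :
    l * (3 * (Real.exp (-(Real.log l / t * (l ^ 5 / 3)) + l * Real.log (450 * t)) * W)) ≤
      Real.exp (-l ^ 3) := by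
  have l1 := h.l1
  have M1 := h.M1
  have l0 : 0 < l := by linarith
  have b0 : l ^ 2 ≤ l ^ 3 := pow_le_pow_right₀ (by linarith) (by norm_num)
  have u1 : 3 * l ^ 3 ≤ Real.log l / t * (l ^ 5 / 3) := by
    rw [div_mul_eq_mul_div, le_div_iff₀ t0]
    calc 3 * l ^ 3 * t ≤ 3 * l ^ 3 * (M * l ^ 2) := by gcongr
      _ = 9 * M * (l ^ 5 / 3) := by ring
      _ ≤ _ := by gcongr; nlinarith [h.a4]
  have b2 : l * 3 * W ≤ Real.exp (l ^ 2) := by
    refine le_trans ?_ h.p12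
    calc l * 3 * W ≤ l * 3 * (2 * l ^ 5) := by gcongr
      _ = 6 * l ^ 6 := by ring
      _ ≤ l * l ^ 6 := by gcongr; linarith
      _ = l ^ 7 := by ring
      _ ≤ _ := pow_le_pow_right₀ (by linarith) (by norm_num)
  have b3 := h.logt t0 (t1.trans (by nlinarith [pow_pos l0 3]))
  rw [← mul_assoc, mul_left_comm, mul_comm]
  refine (mul_le_mul_of_nonneg_right b2 (Real.exp_pos _).le).trans ?_
  rw [← Real.exp_add]
  exact Real.exp_le_exp.2 (by linarith)

theorem core2 {K : ℝ} (hK : 1 ≤ K) : ∃ M : ℝ, 0 < M ∧ ∀ᶠ l : ℝ in atTop, ∃ z : ℝ,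
    Real.exp (2 * l ^ 3) ≤ z ∧ z ≤ Real.exp (M * l ^ 3) ∧
      ∀ (f : ℕ → ℕ) (e x δ X : ℝ) (S : Finset ℕ), Sw.Mul f e → x = Real.exp (l ^ 5) →
        δ = Real.exp (-l ^ 3) → x ≤ X → X ≤ 2 * x →
        (∀ n ∈ S, 0 < n ∧ X ≤ n + (f n : ℝ) ∧ n + (f n : ℝ) ≤ X + x * δ ∧
          ¬Sv z (Real.exp (l ^ 5 / 2)) n) → K * S.card ≤ 8 * (x * δ) := by
  classical
  obtain ⟨c, C, Y0, c0, c1, C1, H⟩ := tup
  refine ⟨2 * (200 / c), by positivity, ?_⟩
  filter_upwards [lg Y0 c0 c1 C1, eventually_ge_atTop (2 * (K * C) * (200 / c))] with l h hKl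
  generalize 200 / c = M at h hKl
  have l1 := h.l1
  have M1 := h.M1
  have Ml := h.Ml
  have l0 : 0 < l := by linarith
  have p2 : l ≤ l ^ 2 := le_self_pow₀ (by linarith) two_ne_zero
  have p3 : 10 ^ 16 * l ^ 2 ≤ l ^ 3 := by nlinarith
  have p5 : 10 ^ 14 * M * l ^ 3 ≤ l ^ 5 := by
    calc 10 ^ 14 * M * l ^ 3 ≤ l ^ 2 * l ^ 3 := by gcongr; linarith
      _ = _ := by ring
  have p6 : 200 * l ^ 2 ≤ M * l ^ 2 := by gcongr
  have p7 : 200 * l ^ 3 ≤ M * l ^ 3 := by gcongr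
  have ll : 0 ≤ Real.log l := Real.log_nonneg (by linarith)
  obtain ⟨κ, hκ⟩ : ∃ κ, κ = ⌈M * l ^ 2⌉₊ := ⟨_, rfl⟩
  obtain ⟨m, hm⟩ : ∃ m, m = ⌈l⌉₊ := ⟨_, rfl⟩
  obtain ⟨w, hw⟩ : ∃ w, w = κ * Real.log 2 := ⟨_, rfl⟩
  have k1 : M * l ^ 2 ≤ κ := hκ ▸ Nat.le_ceil _
  have k2 : κ < M * l ^ 2 + 1 := hκ ▸ Nat.ceil_lt_add_one (by positivity)
  have k0 : 0 < κ := by exact_mod_cast (show (0 : ℝ) < κ by linarith)
  have m1 : l ≤ m := hm ▸ Nat.le_ceil _
  have m2 : m < l + 1 := hm ▸ Nat.ceil_lt_add_one l0.le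
  have w0 : M * l ^ 2 / 2 ≤ w := by nlinarith [Real.log_two_gt_d9]
  have w1 : w ≤ M * l ^ 2 := by nlinarith [Real.log_two_lt_d9]
  have e1 : ∀ i : ℕ, (2 : ℝ) ^ (i * κ) = Real.exp (i * w) := fun i => by
    rw [hw, ← mul_assoc, ← Nat.cast_mul, Real.exp_nat_mul, Real.exp_log two_pos]
  have e2 : ∀ i : ℕ, Real.log (2 ^ ((i + 1) * κ)) = (i + 1) * w := fun i => by
    rw [e1, Real.log_exp, Nat.cast_succ]
  have z1 : 2 * l ^ 3 ≤ (m + 1) * w := by nlinarith
  have z2 : ∀ i : ℝ, i ≤ m → (i + 1) * w ≤ 2 * M * l ^ 3 := fun i hi => by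
    calc (i + 1) * w ≤ 2 * l * (M * l ^ 2) := by gcongr <;> linarith
      _ = _ := by ring
  refine ⟨2 ^ ((m + 1) * κ), by rw [e1]; exact Real.exp_le_exp.2 (by push_cast; linarith),
    by rw [e1]; exact Real.exp_le_exp.2 (by push_cast; linarith [z2 m le_rfl]),
    fun f e x δ X S hf hx hδ x1 x2 hS => ?_⟩
  have Kl : K ≤ l := by
    have : K * 1 ≤ K * (C * M) := by gcongr; nlinarith
    nlinarith
  obtain ⟨N, hN⟩ : ∃ N, N = ⌊3 * x⌋₊ := ⟨_, rfl⟩
  have x0 : 0 < x := hx ▸ Real.exp_pos _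
  have δ0 : 0 < δ := hδ ▸ Real.exp_pos _
  have δ2 : 1 / δ = Real.exp (l ^ 3) := by rw [hδ, Real.exp_neg, one_div, inv_inv]
  have δ1 : δ ≤ 1 / 2 := by
    rw [le_one_div δ0 two_pos, δ2]
    linarith [Real.add_one_le_exp (l ^ 3)]
  have N1 : (N : ℝ) ≤ 3 * x := hN ▸ Nat.floor_le (by positivity)
  have N2 : Real.log (3 * x) ≤ 2 + l ^ 5 := by
    rw [Real.log_mul (by norm_num) x0.ne', hx, Real.log_exp]
    linarith [Real.log_le_sub_one_of_pos (show (0 : ℝ) < 3 by norm_num)]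
  have W0 : 0 ≤ 1 + Real.log N := by linarith [Real.log_natCast_nonneg N]
  have W1 : 1 + Real.log N ≤ 2 * l ^ 5 := by
    rcases Nat.eq_zero_or_pos N with rfl | h
    · rw [Nat.cast_zero, Real.log_zero]; linarith
    · linarith [Real.log_le_log (by exact_mod_cast h) N1]
  have hn : ∀ n ∈ S, n ∈ Ioc 0 N := fun n hn => mem_Ioc.2 ⟨(hS n hn).1, hN ▸ Nat.le_floor (by
    nlinarith [(hS n hn).2.2.1, Nat.cast_nonneg (α := ℝ) (f n)])⟩
  obtain ⟨J, hJ⟩ : ∃ J : ℕ → ℕ, ∀ i, J i = ⌈4 * (1000 + l ^ 3 / (i * w)) ^ 3 / c⌉₊ := ⟨_, fun _ => rfl⟩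
  have s1 := h.sum w0 w1 (m := m) (by linarith)
  simp only [← hJ] at s1
  have h1 : S ⊆ (S.filter fun n => ∃ k : ℕ, Real.exp (2 * l ^ 3) < k ∧ k ^ 2 ∣ n) ∪
        (S.filter (Big (2 ^ κ) (l ^ 5 / 3)) ∪ (Icc 1 m).biUnion fun j =>
          S.filter (Sw.Sc (j * κ) ((j + 1) * κ) (J j) (l ^ 5 / 5))) := fun n hn => by
    simp only [mem_union, mem_filter, mem_biUnion, hn, true_and]
    refine (split J (V0 := l ^ 5 / 2) (hS n hn).1 ?_ ?_ ?_).imp_right
      fun h => h.resolve_left (hS n hn).2.2.2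
    · rw [e1]
      exact Real.exp_le_exp.2 (by push_cast; linarith)
    · simp only [e2, Real.log_exp]
      linarith
    · simp only [e2]
      linarith
  have h2 := sq_count (S.filter fun n => ∃ k : ℕ, Real.exp (2 * l ^ 3) < k ∧ k ^ 2 ∣ n) N
    (Real.exp_pos (2 * l ^ 3)) fun n h => ⟨hn n (mem_filter.1 h).1, (mem_filter.1 h).2⟩
  have h4 : K * ((S.filter (Big (2 ^ κ) (l ^ 5 / 3))).card : ℝ) ≤ x * δ := by
    have e3 : Real.log (2 ^ κ) = w := by rw [Real.log_pow, hw]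
    have b1 := rankin (S.filter (Big (2 ^ κ) (l ^ 5 / 3))) N (η := Real.log l / w)
      (le_self_pow₀ one_le_two k0.ne') (div_nonneg ll (by linarith)) l0
      (by rw [e3, div_mul_cancel₀ _ (by linarith)])
      fun n h => ⟨hn n (mem_filter.1 h).1, (mem_filter.1 h).2⟩
    have b2 := zero2 h (t := w) (by linarith) w1 W1
    rw [e3] at b1
    rw [← hδ] at b2
    refine le_trans (mul_le_mul Kl ?_ (Nat.cast_nonneg _) l0.le) ((mul_le_mul_of_nonneg_left
      (mul_le_mul_of_nonneg_left b1 (show 0 ≤ 3 * x by positivity)) l0.le).trans (by nlinarith))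
    rw [card_eq_sum_ones, Nat.cast_sum, mul_sum]
    refine sum_le_sum fun n h => ?_
    obtain ⟨b3, b4⟩ := mem_Ioc.1 (hn n (mem_filter.1 h).1)
    rw [mul_one_div, Nat.cast_one, one_le_div (by exact_mod_cast b3)]
    exact le_trans (by exact_mod_cast b4) N1
  have h5 : ∀ j ∈ Icc 1 m,
      K * ((S.filter (Sw.Sc (j * κ) ((j + 1) * κ) (J j) (l ^ 5 / 5))).card : ℝ) ≤
      x * δ / m := fun j hj => by
    have j1 : (1 : ℝ) ≤ j := by exact_mod_cast (mem_Icc.1 hj).1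
    have j2 : (j : ℝ) ≤ m := by exact_mod_cast (mem_Icc.1 hj).2
    have j3 : w ≤ j * w := le_mul_of_one_le_left (by linarith) j1
    have e3 : ((j * κ : ℕ) : ℝ) * Real.log 2 = j * w := by rw [hw, Nat.cast_mul, mul_assoc]
    have K0 : 0 ≤ l ^ 3 / (j * w) := div_nonneg (by linarith) (by linarith)
    have K1 : l ^ 3 / (j * w) ≤ l := by
      rw [div_le_iff₀ (by linarith)]
      nlinarith
    have K2 : Real.log (1000 + l ^ 3 / (j * w)) ≤ 2 * Real.log l := by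
      have := Real.log_le_log (by linarith) (show 1000 + l ^ 3 / (j * w) ≤ l ^ 2 by nlinarith)
      rwa [Real.log_pow] at this
    have b1 := smooth_count (K := 1000 + l ^ 3 / (j * w)) (η := Real.log l / ((j + 1) * w))
      (κ1 := j * κ) (κ2 := (j + 1) * κ) (J := J j) (N := N) (V := l ^ 5 / 5) H C1 hf
      (by rw [e1]; linarith [h.a1, Real.add_one_le_exp (j * w)]) (by rw [add_one_mul]; omega)
      (by linarith) (by
        rw [e3]
        calc _ ≤ 10 ^ 6 * (2 * l) * (2 * Real.log l) := by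
              gcongr
              · exact Real.log_nonneg (by linarith)
              · linarith
          _ ≤ _ := by nlinarith [h.a5]) δ0 (by linarith) (by
        rw [e3, δ2, add_mul, div_mul_cancel₀ _ (by linarith)]
        exact Real.exp_le_exp.2 (by linarith)) (by
        rw [hJ, ← div_le_iff₀' c0]
        exact Nat.le_ceil _) x0 x1 x2 (div_nonneg ll (by nlinarith)) l0
      (by rw [e2, div_mul_cancel₀ _ (by nlinarith)])
      (S.filter (Sw.Sc (j * κ) ((j + 1) * κ) (J j) (l ^ 5 / 5))) fun n h =>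
        ⟨hn n (mem_filter.1 h).1, (hS n (mem_filter.1 h).1).2.1, (hS n (mem_filter.1 h).1).2.2.1,
          (mem_filter.1 h).2⟩
    have b2 := h.scale (t := (j + 1) * w) (B := K * (C * κ)) (J := J j) (m := m) (by linarith) (z2 j j2)
      ((single_le_sum (f := fun i => (J i : ℝ) * ((i + 1) * w)) (fun i _ =>
        mul_nonneg (Nat.cast_nonneg _) (mul_nonneg (by positivity) (by linarith))) hj).trans s1)
      (by positivity) (by
        calc K * (C * κ) ≤ K * (C * (2 * (M * l ^ 2))) := by gcongr; linarith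
          _ = 2 * (K * C) * M * l ^ 2 := by ring
          _ ≤ l * l ^ 2 := by gcongr
          _ = _ := by ring) w1 (by linarith) W0 W1
    rw [e2, e1, e1, ← Real.exp_sub, show (((j + 1) * κ : ℕ) : ℝ) - (j * κ : ℕ) = κ by
      push_cast; ring, show ((j + 1 : ℕ) : ℝ) * w - j * w = w by push_cast; ring, mul_assoc] at b1
    have J0 : J j ≠ 0 := by
      rw [hJ]
      exact (Nat.ceil_pos.2 (by positivity)).ne'
    have b3 : K * (C * κ) ^ J j ≤ (K * (C * κ)) ^ J j := by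
      rw [mul_pow K]
      exact mul_le_mul_of_nonneg_right (le_self_pow₀ hK J0) (by positivity)
    rw [le_div_iff₀' (by linarith)]
    refine (mul_le_mul_of_nonneg_left (mul_le_mul_of_nonneg_left b1 (by linarith))
      (Nat.cast_nonneg _)).trans ?_
    refine le_trans ?_ (mul_le_of_le_one_right (show 0 ≤ x * δ by positivity) b2)
    calc _ = x * δ * (m * (10 ^ 5 * J j * (K * (C * κ) ^ J j) * Real.exp w *
          (Real.exp (-(Real.log l / ((j + 1) * w) * (l ^ 5 / 5)) +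
            l * Real.log (450 * ((j + 1) * w))) * (1 + Real.log N)))) := by ring
      _ ≤ _ := by gcongr
  have h6 := (Nat.cast_le (α := ℝ)).2 ((card_le_card h1).trans ((card_union_le _ _).trans
    (add_le_add_right ((card_union_le _ _).trans (add_le_add_right card_biUnion_le _)) _)))
  push_cast at h6
  have h7 := sum_le_card_nsmul _ _ _ h5
  rw [Nat.card_Icc, add_tsub_cancel_right, nsmul_eq_mul, mul_div_cancel₀ _ (by linarith),
    ← mul_sum] at h7
  have h8 : K * (N * (2 / Real.exp (2 * l ^ 3))) ≤ 3 * x * (2 * δ) := by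
    have b1 : K * δ ≤ 1 := by
      rw [← le_div_iff₀ δ0, δ2]
      linarith [Real.add_one_le_exp (l ^ 3)]
    rw [two_mul (l ^ 3), Real.exp_add, ← δ2]
    calc K * (N * (2 / (1 / δ * (1 / δ)))) = K * δ * (N * (2 * δ)) := by field_simp
      _ ≤ 1 * (3 * x * (2 * δ)) := by gcongr
      _ = _ := one_mul _
  have K0 : 0 ≤ K := by linarith
  have h9 := mul_le_mul_of_nonneg_left h6 K0
  have h10 := mul_le_mul_of_nonneg_left h2 K0
  rw [mul_add, mul_add] at h9
  linarith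

end Pool.Agent.P.MP_9d1108_nt.Sc
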