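import Pool.Agent.P.MP_9d1108_nt.Basic

/-! The density of the values of `n + φ n`. -/

set_option autoImplicit false

namespace Pool.Agent.P.MP_9d1108_nt.Sc

open Finset Filter Topology

theorem cnt_res {Q : ℕ} (hQ : 0 < Q) (r : ℕ) {Y : ℝ} (hY : 0 ≤ Y) :
    |(((Ioc 0 ⌊Y⌋₊).filter fun n => n ≡ r [MOD Q]).card : ℝ) - Y / Q| ≤ 2 := by
  have h := Nat.Ioc_filter_modEq_card 0 ⌊Y⌋₊ hQ r
  have hQ1 : (1 : ℝ) ≤ Q := by exact_mod_cast hQ
  have key : ∀ q : ℚ, (q : ℝ) - 1 < (⌊q⌋ : ℤ) ∧ ((⌊q⌋ : ℤ) : ℝ) ≤ q := fun q =>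
    ⟨by exact_mod_cast Int.sub_one_lt_floor q, by exact_mod_cast Int.floor_le q⟩
  obtain ⟨a1, a2⟩ := key (((⌊Y⌋₊ : ℚ) - r) / Q)
  obtain ⟨b1, b2⟩ := key ((((0 : ℕ) : ℚ) - r) / Q)
  have h' := congrArg (fun t : ℤ => (t : ℝ)) h
  simp only [Int.cast_natCast, Int.cast_max, Int.cast_sub, Int.cast_zero] at h'
  rw [h']
  generalize ⌊((⌊Y⌋₊ : ℚ) - r) / Q⌋ = A at *
  generalize ⌊(((0 : ℕ) : ℚ) - r) / Q⌋ = B at *
  push_cast at a1 a2 b1 b2
  rw [sub_div] at a1 a2 b1 b2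
  rw [zero_div] at b1 b2
  have c1 : (⌊Y⌋₊ : ℝ) / Q ≤ Y / Q := div_le_div_of_nonneg_right (Nat.floor_le hY) (by linarith)
  have c2 : Y / Q ≤ (⌊Y⌋₊ : ℝ) / Q + 1 := by
    rw [div_add_one (by linarith)]
    exact div_le_div_of_nonneg_right (by linarith [Nat.lt_floor_add_one Y]) (by linarith)
  have c3 : 0 ≤ Y / Q := by positivity
  rw [abs_le]
  constructor
  · linarith [le_max_left ((A : ℝ) - B) 0]
  · rw [sub_le_iff_le_add, max_le_iff]
    constructor <;> linarith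

/-- The mean of the periodic model. -/
noncomputable def cP (P : ℕ) : ℝ :=
  (∑ r ∈ range (primorial P), 1 / (1 + headProd P r)) / primorial P

/-- The integers `n ≥ 1` with `n + φ n ≤ y`. -/
noncomputable def DS (y : ℝ) : Finset ℕ :=
  (Ioc 0 ⌊y⌋₊).filter fun n => (n : ℝ) + Nat.totient n ≤ y

theorem mem_DS {y : ℝ} {n : ℕ} : n ∈ DS y ↔ 0 < n ∧ (n : ℝ) + Nat.totient n ≤ y := by
  rw [DS, mem_filter, mem_Ioc]
  exact ⟨fun h => ⟨h.1.1, h.2⟩, fun h => ⟨⟨h.1, Nat.le_floor (by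
    linarith [h.2, Nat.cast_nonneg (α := ℝ) (Nat.totient n)])⟩, h.2⟩⟩

theorem head_congr {P n r : ℕ} (h : n ≡ r [MOD primorial P]) : headProd P n = headProd P r := by
  rw [← headProd_mod P n, ← headProd_mod P r, h]

theorem sum_res (Q : ℕ) (hQ : 0 < Q) (S : Finset ℕ) (g : ℕ → ℝ) :
    ∑ n ∈ S, g n = ∑ r ∈ range Q, ∑ n ∈ S with n ≡ r [MOD Q], g n := by
  rw [← sum_fiberwise_of_maps_to (s := S) (t := range Q) (g := fun n => n % Q)
    fun n _ => mem_range.2 (Nat.mod_lt _ hQ)]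
  refine sum_congr rfl fun r hr => sum_congr (filter_congr fun n _ => ?_) fun _ _ => rfl
  rw [Nat.ModEq, Nat.mod_eq_of_lt (mem_range.1 hr)]

theorem close (P : ℕ) (t : ℕ → ℝ) (y : ℝ)
    (h : ∀ r, |t r - y / (1 + headProd P r) / primorial P| ≤ 2) :
    |∑ r ∈ range (primorial P), t r - cP P * y| ≤ 2 * primorial P := by
  have e : cP P * y = ∑ r ∈ range (primorial P), y / (1 + headProd P r) / primorial P := by
    rw [cP, sum_div, sum_mul]
    exact sum_congr rfl fun r _ => by ring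
  rw [e, ← sum_sub_distrib]
  refine (abs_sum_le_sum_abs _ _).trans ((sum_le_card_nsmul _ _ _ fun r _ => h r).trans_eq ?_)
  rw [card_range, nsmul_eq_mul, mul_comm]

theorem model_mean (P N : ℕ) :
    |∑ n ∈ Ioc 0 N, 1 / (1 + headProd P n) - cP P * N| ≤ 2 * primorial P := by
  rw [sum_res _ (primorial_pos P)]
  refine close P _ _ fun r => ?_
  have h0 := headProd_nonneg P r
  have h := cnt_res (primorial_pos P) r (Nat.cast_nonneg (α := ℝ) N)
  rw [Nat.floor_natCast] at h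
  rw [sum_congr rfl (g := fun _ => 1 / (1 + headProd P r))
    fun n hn => by rw [head_congr (mem_filter.1 hn).2], sum_const, nsmul_eq_mul,
    show (N : ℝ) / (1 + headProd P r) / primorial P =
      N / primorial P * (1 / (1 + headProd P r)) by ring, ← sub_mul, abs_mul]
  refine (mul_le_mul h (show _ ≤ 1 from ?_) (abs_nonneg _) zero_le_two).trans_eq (mul_one _)
  rw [abs_of_nonneg (by positivity), div_le_one (by positivity)]
  linarith

theorem model_count (P : ℕ) {y : ℝ} (hy : 0 ≤ y) :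
    |(((Ioc 0 ⌊y⌋₊).filter fun n : ℕ => (n : ℝ) * (1 + headProd P n) ≤ y).card : ℝ) - cP P * y| ≤
      2 * primorial P := by
  rw [card_eq_sum_ones, Nat.cast_sum, sum_res _ (primorial_pos P)]
  refine close P _ _ fun r => ?_
  have h0 := headProd_nonneg P r
  have h1 : 0 ≤ y / (1 + headProd P r) := by positivity
  have h := cnt_res (primorial_pos P) r h1
  rw [← Nat.cast_sum, ← card_eq_sum_ones]
  refine le_of_eq_of_le ?_ h
  congr 4
  ext n
  simp only [mem_filter, mem_Ioc, Nat.le_floor_iff hy, Nat.le_floor_iff h1,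
    le_div_iff₀ (show 0 < 1 + headProd P r by positivity)]
  constructor
  · rintro ⟨⟨⟨a, _⟩, c⟩, d⟩
    exact ⟨⟨a, head_congr d ▸ c⟩, d⟩
  · rintro ⟨⟨a, c⟩, d⟩
    refine ⟨⟨⟨a, ?_⟩, (head_congr d).symm ▸ c⟩, d⟩
    nlinarith [Nat.cast_nonneg (α := ℝ) n]

theorem ratio_bounds (P : ℕ) {n : ℕ} (hn : 0 < n) :
    1 / (1 + headProd P n) ≤ (n : ℝ) / (n + Nat.totient n) ∧
      (n : ℝ) / (n + Nat.totient n) ≤ 1 / (1 + headProd P n) + tailSum P n := by
  have h0 := headProd_nonneg P n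
  have h1 := headProd_le_one P n
  have h2 := totient_le_head P n hn.ne'
  have h3 := head_le_totient P n hn.ne'
  have h4 := tailSum_nonneg P n
  have n0 : (0 : ℝ) < n := by exact_mod_cast hn
  have f0 : (0 : ℝ) ≤ Nat.totient n := Nat.cast_nonneg _
  constructor
  · rw [div_le_div_iff₀ (by positivity) (by positivity)]
    linarith
  · rw [div_add' _ _ _ (by positivity), div_le_div_iff₀ (by positivity) (by positivity)]
    nlinarith [mul_nonneg h4 f0, mul_nonneg (mul_nonneg h4 h0) f0, mul_nonneg h4 n0.le]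

theorem mean_bounds {P : ℕ} (hP : 1 ≤ P) (N : ℕ) :
    cP P * N - 2 * primorial P ≤ ∑ n ∈ Ioc 0 N, (n : ℝ) / (n + Nat.totient n) ∧
      ∑ n ∈ Ioc 0 N, (n : ℝ) / (n + Nat.totient n) ≤ cP P * N + 2 * primorial P + N / P := by
  obtain ⟨a, b⟩ := abs_le.1 (model_mean P N)
  have h1 := sum_le_sum (s := Ioc 0 N) fun n hn => (ratio_bounds P (mem_Ioc.1 hn).1).1
  have h2 := sum_le_sum (s := Ioc 0 N) fun n hn => (ratio_bounds P (mem_Ioc.1 hn).1).2
  rw [sum_add_distrib] at h2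
  constructor <;> linarith [sum_tailSum_le P N hP]

theorem count_bounds {P : ℕ} (hP : 1 ≤ P) {y η : ℝ} (hy : 0 ≤ y) (h0 : 0 < η) (h1 : η ≤ 1 / 2) :
    cP P * y - 2 * primorial P ≤ (DS y).card ∧
      ((DS y).card : ℝ) ≤ cP P * ((1 + 2 * η) * y) + 2 * primorial P + y / (P * η) := by
  constructor
  · have a := (abs_le.1 (model_count P hy)).1
    have b : ((Ioc 0 ⌊y⌋₊).filter fun n : ℕ => (n : ℝ) * (1 + headProd P n) ≤ y) ⊆ DS y :=
      fun n hn => by
        obtain ⟨c, d⟩ := mem_filter.1 hn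
        exact mem_filter.2 ⟨c, by linarith [totient_le_head P n (mem_Ioc.1 c).1.ne']⟩
    linarith [(Nat.cast_le (α := ℝ)).2 (card_le_card b)]
  · have a := (abs_le.1 (model_count P (show 0 ≤ (1 + 2 * η) * y by positivity))).2
    have b : DS y ⊆ ((Ioc 0 ⌊(1 + 2 * η) * y⌋₊).filter fun n : ℕ =>
        (n : ℝ) * (1 + headProd P n) ≤ (1 + 2 * η) * y) ∪
          (Ioc 0 ⌊y⌋₊).filter fun n => η < tailSum P n := fun n hn => by
      obtain ⟨c, d⟩ := mem_filter.1 hn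
      rcases lt_or_ge η (tailSum P n) with h | h
      · exact mem_union_right _ (mem_filter.2 ⟨c, h⟩)
      have e1 := head_le_totient P n (mem_Ioc.1 c).1.ne'
      have e2 : 0 ≤ (n : ℝ) * headProd P n := mul_nonneg (Nat.cast_nonneg _) (headProd_nonneg P n)
      have e3 : (0 : ℝ) ≤ n := Nat.cast_nonneg _
      have e4 : n * headProd P n * (1 - η) ≤ Nat.totient n :=
        le_trans (mul_le_mul_of_nonneg_left (by linarith) e2) e1
      have e5 : η * (n * headProd P n) ≤ η * (2 * y) :=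
        mul_le_mul_of_nonneg_left (by nlinarith) h0.le
      refine mem_union_left _ (mem_filter.2 ⟨mem_Ioc.2 ⟨(mem_Ioc.1 c).1, (mem_Ioc.1 c).2.trans
        (Nat.floor_le_floor (by nlinarith))⟩, by linarith⟩)
    have c := (Nat.cast_le (α := ℝ)).2 ((card_le_card b).trans (card_union_le _ _))
    have d := card_bad_le P ⌊y⌋₊ hP η h0
    have e : (⌊y⌋₊ : ℝ) / (P * η) ≤ y / (P * η) :=
      div_le_div_of_nonneg_right (Nat.floor_le hy) (by positivity)
    push_cast at c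
    linarith

theorem cP_bounds (P : ℕ) : 1 / 2 ≤ cP P ∧ cP P ≤ 1 := by
  have hQ : (0 : ℝ) < primorial P := by exact_mod_cast primorial_pos P
  rw [cP, le_div_iff₀ hQ, div_le_iff₀ hQ]
  constructor
  · refine le_trans (le_of_eq ?_) (card_nsmul_le_sum _ _ (1 / 2) fun r _ =>
      one_div_le_one_div_of_le (by linarith [headProd_nonneg P r])
        (by linarith [headProd_le_one P r]))
    rw [card_range, nsmul_eq_mul, mul_comm]
  · refine (sum_le_card_nsmul _ _ 1 fun r _ => ?_).trans_eq (by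
      rw [card_range, nsmul_eq_mul, mul_comm])
    rw [div_le_one (by linarith [headProd_nonneg P r])]
    linarith [headProd_nonneg P r]

theorem cP_le {P P' : ℕ} (hP : 1 ≤ P) (hP' : 1 ≤ P') : cP P' ≤ cP P + 1 / P := by
  refine le_of_forall_pos_le_add fun ε hε => ?_
  obtain ⟨N, hN⟩ := exists_nat_gt ((2 * primorial P + 2 * primorial P' : ℝ) / ε)
  have N0 : (0 : ℝ) < N := lt_of_le_of_lt (by positivity) hN
  rw [div_lt_iff₀ hε] at hN
  refine le_of_mul_le_mul_right ?_ N0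
  have e : (N : ℝ) / P = 1 / P * N := by ring
  linarith [(mean_bounds hP N).2, (mean_bounds hP' N).1]

theorem dens : ∃ c : ℝ, 1 / 2 ≤ c ∧ c ≤ 1 ∧
    Tendsto (fun N : ℕ => (∑ n ∈ Icc 1 N, (n : ℝ) / (n + Nat.totient n)) / N) atTop (𝓝 c) ∧
    ∀ ε : ℝ, 0 < ε → ∀ᶠ y : ℝ in atTop, |((DS y).card : ℝ) - c * y| ≤ ε * y := by
  have hb : BddAbove (Set.range fun P : ℕ => cP (P + 1)) :=
    ⟨1, by rintro _ ⟨P, rfl⟩; exact (cP_bounds _).2⟩
  obtain ⟨c, hc⟩ : ∃ c, c = ⨆ P : ℕ, cP (P + 1) := ⟨_, rfl⟩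
  have c1 : ∀ P : ℕ, cP (P + 1) ≤ c := fun P => hc ▸ le_ciSup hb P
  have c2 : ∀ P : ℕ, c ≤ cP (P + 1) + 1 / (P + 1 : ℕ) := fun P =>
    hc ▸ ciSup_le fun P' => cP_le (by omega) (by omega)
  have c3 : c ≤ 1 := hc ▸ ciSup_le fun P => (cP_bounds _).2
  refine ⟨c, (cP_bounds _).1.trans (c1 0), c3, ?_, fun ε hε => ?_⟩
  · refine Metric.tendsto_nhds.2 fun ε hε => ?_
    obtain ⟨P, hP⟩ := exists_nat_one_div_lt (half_pos hε)
    filter_upwards [tendsto_natCast_atTop_atTop.eventually_gt_atTop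
      (4 * (primorial (P + 1) : ℝ) / ε)] with N hN
    have N0 : (0 : ℝ) < N := lt_of_le_of_lt (by positivity) hN
    rw [div_lt_iff₀ hε] at hN
    obtain ⟨a, b⟩ := mean_bounds (P := P + 1) (by omega) N
    have d1 := mul_le_mul_of_nonneg_right (c1 P) N0.le
    have d2 := mul_le_mul_of_nonneg_right (c2 P) N0.le
    have d3 := mul_lt_mul_of_pos_right hP N0
    have e : (N : ℝ) / (P + 1 : ℕ) = 1 / (P + 1 : ℕ) * N := by ring
    rw [e] at b
    push_cast at b d2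
    rw [Real.dist_eq, show Icc 1 N = Ioc 0 N from rfl, div_sub' N0.ne', abs_div, abs_of_pos N0,
      div_lt_iff₀ N0, abs_lt]
    constructor <;> linarith
  · obtain ⟨η, hη⟩ : ∃ η, η = min (1 / 2) (ε / 6) := ⟨_, rfl⟩
    have η0 : 0 < η := hη ▸ lt_min (by norm_num) (by positivity)
    have η1 : η ≤ 1 / 2 := hη ▸ min_le_left _ _
    have η2 : η ≤ ε / 6 := hη ▸ min_le_right _ _
    obtain ⟨P, hP⟩ := exists_nat_one_div_lt (show 0 < ε / 3 * η by positivity)
    filter_upwards [eventually_gt_atTop (6 * (primorial (P + 1) : ℝ) / ε)] with y hy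
    have y0 : 0 < y := lt_of_le_of_lt (by positivity) hy
    rw [div_lt_iff₀ hε] at hy
    obtain ⟨a, b⟩ := count_bounds (P := P + 1) (by omega) y0.le η0 η1
    have d1 := mul_le_mul_of_nonneg_right (c1 P) (show 0 ≤ (1 + 2 * η) * y by positivity)
    have d2 := mul_le_mul_of_nonneg_right (c2 P) y0.le
    have d3 : y / ((P + 1 : ℕ) * η) ≤ ε / 3 * y := by
      rw [div_le_iff₀ (by positivity)]
      rw [div_lt_iff₀ (by positivity)] at hP
      push_cast
      nlinarith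
    have d4 : 1 / ((P : ℝ) + 1) * y ≤ ε / 3 * y :=
      mul_le_mul_of_nonneg_right (hP.le.trans (by nlinarith)) y0.le
    have d5 : c * (η * y) ≤ 1 * (ε / 6 * y) := by gcongr
    push_cast at d2
    rw [abs_le]
    constructor <;> linarith

end Pool.Agent.P.MP_9d1108_nt.Sc
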