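import Pool.Agent.P.MP_9d1108_nt.Sc.Win

/-! All windows of length at least `x exp (-(log x) ^ (3 / 5))`, and the lower bound for every
window length tending to infinity. -/

set_option autoImplicit false

namespace Pool.Agent.P.MP_9d1108_nt.Sc

open Finset Filter Topology Pool.Agent.P.MP_9d1108_nt.Sw

variable {c : ℝ}

theorem closed (hc : ∀ ε : ℝ, 0 < ε → ∀ᶠ y : ℝ in atTop, |((DS y).card : ℝ) - c * y| ≤ ε * y)
    {ε : ℝ} (hε : 0 < ε) : ∀ᶠ x : ℕ in atTop, ∀ h : ℝ,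
      x * Real.exp (-Real.log x ^ (3 / 5 : ℝ)) / 2 ≤ h → |((WS x h).card : ℝ) - c * h| ≤ ε * h := by
  obtain ⟨e, rfl⟩ : ∃ e, ε = 5 * e := ⟨ε / 5, by ring⟩
  have e0 : 0 < e := by linarith
  obtain ⟨y0, hy⟩ := eventually_atTop.1 (hc e e0)
  filter_upwards [tendsto_root.eventually (window e0), eventually_ge_atTop 1,
    tendsto_natCast_atTop_atTop.eventually_ge_atTop y0] with x ⟨G, hG⟩ x1 x2 h hh
  have x0 : (0 : ℝ) < x := by exact_mod_cast x1
  obtain ⟨δ, hδ⟩ : ∃ δ, δ = Real.exp (-Real.log x ^ (3 / 5 : ℝ)) := ⟨_, rfl⟩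
  replace hG := fun H => hG x δ H (by rw [(root_pow x).1, Real.exp_log x0])
    (by rw [(root_pow x).2, hδ])
  rw [← hδ] at hh
  have δ0 : 0 < δ := hδ ▸ Real.exp_pos _
  have δ1 : δ ≤ 1 := hδ ▸ Real.exp_le_one_iff.2
    (neg_nonpos.2 (Real.rpow_nonneg (Real.log_natCast_nonneg x) _))
  have h0 : 0 < h := lt_of_lt_of_le (by positivity) hh
  have long : ∀ H : ℝ, x ≤ H → |((WS x H).card : ℝ) - c * H| ≤ 3 * e * H := fun H hH => by
    obtain ⟨a1, a2⟩ := abs_le.1 (hy x x2)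
    obtain ⟨b1, b2⟩ := abs_le.1 (hy (x + H) (by linarith))
    have := mul_le_mul_of_nonneg_left hH e0.le
    rw [card_WS (by linarith), abs_le]
    constructor <;> linarith
  rcases le_total (x : ℝ) h with h1 | h1
  · exact (long h h1).trans (by nlinarith)
  obtain ⟨a1, a2⟩ := abs_le.1 (long x le_rfl)
  obtain ⟨b1, b2⟩ := abs_le.1 (hG x (by nlinarith) le_rfl)
  obtain ⟨d1, d2⟩ := abs_le.1 (hG h hh h1)
  have g1 : G ≤ c + 4 * e := le_of_mul_le_mul_right (by linarith) x0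
  have g2 : c ≤ G + 4 * e := le_of_mul_le_mul_right (by linarith) x0
  have g3 := mul_le_mul_of_nonneg_right g1 h0.le
  have g4 := mul_le_mul_of_nonneg_right g2 h0.le
  rw [abs_le]
  constructor <;> linarith

theorem ncard_eq {x : ℝ} (hx : 0 ≤ x) (h : ℝ) :
    Set.ncard {n : ℕ | x < n + (Nat.totient n : ℝ) ∧ n + (Nat.totient n : ℝ) < x + h} =
      ((WS x h).filter fun n : ℕ => n + (Nat.totient n : ℝ) < x + h).card := by
  rw [← Set.ncard_coe_finset]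
  congr 1
  ext n
  rw [mem_coe, mem_filter, mem_WS]
  refine ⟨fun a => ⟨⟨Nat.pos_of_ne_zero ?_, a.1, a.2.le⟩, a.2⟩, fun a => ⟨a.1.2.1, a.2⟩⟩
  rintro rfl
  exact a.1.not_ge (by simpa using hx)

theorem opn (c1 : c ≤ 1)
    (hc : ∀ ε : ℝ, 0 < ε → ∀ᶠ y : ℝ in atTop, |((DS y).card : ℝ) - c * y| ≤ ε * y)
    {ε : ℝ} (hε : 0 < ε) : ∀ᶠ x : ℕ in atTop, ∀ h : ℝ,
      x * Real.exp (-Real.log x ^ (3 / 5 : ℝ)) ≤ h →
        |(Set.ncard {n : ℕ | (x : ℝ) < n + (Nat.totient n : ℝ) ∧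
          n + (Nat.totient n : ℝ) < x + h} : ℝ) - c * h| ≤ ε * h := by
  obtain ⟨e, he⟩ : ∃ e, e = min (1 / 2) (ε / 2) := ⟨_, rfl⟩
  have e0 : 0 < e := he ▸ lt_min (by norm_num) (by positivity)
  have e1 : e ≤ 1 / 2 := he ▸ min_le_left _ _
  have e2 : e ≤ ε / 2 := he ▸ min_le_right _ _
  filter_upwards [closed hc e0, eventually_ge_atTop 1] with x hx x1 h hh
  have x0 : (0 : ℝ) < x := by exact_mod_cast x1
  have F0 : 0 < x * Real.exp (-Real.log x ^ (3 / 5 : ℝ)) := by positivity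
  have h0 : 0 < h := F0.trans_le hh
  have eh : 0 < e * h := by positivity
  have a := (abs_le.1 (hx h (by linarith))).2
  have b := (abs_le.1 (hx (h - e * h) (by nlinarith))).1
  have d1 := (Nat.cast_le (α := ℝ)).2
    (card_filter_le (WS x h) fun n : ℕ => n + (Nat.totient n : ℝ) < x + h)
  have d2 := (Nat.cast_le (α := ℝ)).2 (card_le_card (show WS x (h - e * h) ⊆
      (WS x h).filter fun n : ℕ => n + (Nat.totient n : ℝ) < x + h from fun n hn => by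
    obtain ⟨p, q, r⟩ := mem_WS.1 hn
    exact mem_filter.2 ⟨mem_WS.2 ⟨p, q, by linarith⟩, by linarith⟩))
  have d3 := mul_le_mul_of_nonneg_right c1 eh.le
  have d4 := mul_le_mul_of_nonneg_right e2 h0.le
  have d5 := mul_pos e0 eh
  rw [ncard_eq x0.le, abs_le]
  constructor <;> linarith

theorem lower (c1 : c ≤ 1)
    (hc : ∀ ε : ℝ, 0 < ε → ∀ᶠ y : ℝ in atTop, |((DS y).card : ℝ) - c * y| ≤ ε * y)
    {F : ℕ → ℝ} (hF : Tendsto F atTop atTop) {ε : ℝ} (hε : 0 < ε) :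
    ∃ᶠ x : ℕ in atTop, (c - ε) * F x ≤ (Set.ncard {n : ℕ | (x : ℝ) < n + (Nat.totient n : ℝ) ∧
      n + (Nat.totient n : ℝ) < x + F x} : ℝ) := by
  intro hn
  obtain ⟨x0, hx⟩ := eventually_atTop.1 (hn.and (hF.eventually_ge_atTop (2 / ε + 2)))
  have step : ∀ x ≥ x0, ∃ y : ℕ, x + 1 ≤ y ∧
      ((DS y).card : ℝ) - (c - ε / 2) * y ≤ (DS x).card - (c - ε / 2) * x := fun x h => by
    obtain ⟨h1, h2⟩ := hx x h
    rw [not_le, ncard_eq (Nat.cast_nonneg x)] at h1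
    have a0 : 0 < 2 / ε := by positivity
    obtain ⟨k, hk⟩ : ∃ k, ⌈F x⌉₊ = k + 1 :=
      Nat.exists_eq_succ_of_ne_zero (Nat.ceil_pos.2 (by linarith)).ne'
    have k1 : (k : ℝ) < F x := Nat.lt_ceil.1 (by omega)
    have k2 : F x ≤ k + 1 := by exact_mod_cast hk ▸ Nat.le_ceil (F x)
    have k3 : 1 ≤ k := by exact_mod_cast (show (1 : ℝ) ≤ k by linarith)
    have k4 : 2 ≤ k * ε := (div_le_iff₀ hε).1 (by linarith)
    have b := (Nat.cast_le (α := ℝ)).2 (card_le_card (show WS x k ⊆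
        (WS x (F x)).filter fun n : ℕ => n + (Nat.totient n : ℝ) < x + F x from fun n hn => by
      obtain ⟨p, q, r⟩ := mem_WS.1 hn
      exact mem_filter.2 ⟨mem_WS.2 ⟨p, q, by linarith⟩, by linarith⟩))
    have b0 : (0 : ℝ) ≤ (WS x k).card := Nat.cast_nonneg _
    have b1 : 0 < c - ε :=
      (mul_pos_iff_of_pos_right (by linarith : 0 < F x)).1 (b0.trans_lt (b.trans_lt h1))
    have b2 := mul_le_mul_of_nonneg_left k2 b1.le
    rw [card_WS (Nat.cast_nonneg k)] at b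
    refine ⟨x + k, by omega, ?_⟩
    push_cast
    linarith
  have chain : ∀ j : ℕ, ∃ y : ℕ, x0 + j ≤ y ∧
      ((DS y).card : ℝ) - (c - ε / 2) * y ≤ (DS x0).card - (c - ε / 2) * x0 := fun j => by
    induction j with
    | zero => exact ⟨x0, le_rfl, le_rfl⟩
    | succ j ih =>
      obtain ⟨y, h1, h2⟩ := ih
      obtain ⟨y', h3, h4⟩ := step y (by omega)
      exact ⟨y', by omega, h4.trans h2⟩
  obtain ⟨y0, hy⟩ := eventually_atTop.1 ((hc (ε / 4) (by positivity)).and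
    (eventually_gt_atTop ((((DS x0).card : ℝ) - (c - ε / 2) * x0) / (ε / 4))))
  obtain ⟨y, h1, h2⟩ := chain ⌈y0⌉₊
  obtain ⟨h3, h4⟩ := hy y ((Nat.le_ceil y0).trans (by exact_mod_cast (by omega)))
  rw [div_lt_iff₀ (by positivity)] at h4
  linarith [(abs_le.1 h3).1]

end Pool.Agent.P.MP_9d1108_nt.Sc
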