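import Pool.Agent.P.MP_8be758_nt.Avg.FL
import Pool.Agent.P.MP_9d1108_nt.Basic

/-! Rough numbers in an interval. -/

set_option autoImplicit false

namespace Pool.Agent.P.MP_9d1108_nt.Sc

open Finset
open Pool.Agent.P.MP_8be758_nt.Avg (PL Rough mem_PL prime_of_mem_PL Vz FLData t_FL)

theorem mult_count {d : ℕ} (hd : 0 < d) {u L : ℝ} (hu : 0 ≤ u) (hL : 0 ≤ L) :
    |(((Ioc ⌊u⌋₊ ⌊u + L⌋₊).filter fun b => d ∣ b).card : ℝ) - L / d| ≤ 1 := by
  have h1 : ⌊u⌋₊ ≤ ⌊u + L⌋₊ := Nat.floor_le_floor (by linarith)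
  have h2 : ((Ioc 0 ⌊u⌋₊).filter fun b => d ∣ b).card +
      ((Ioc ⌊u⌋₊ ⌊u + L⌋₊).filter fun b => d ∣ b).card =
        ((Ioc 0 ⌊u + L⌋₊).filter fun b => d ∣ b).card := by
    rw [← card_union_of_disjoint (disjoint_filter_filter (Ioc_disjoint_Ioc_of_le le_rfl)),
      ← filter_union, Ioc_union_Ioc_eq_Ioc (Nat.zero_le _) h1]
  rw [Nat.Ioc_filter_dvd_card_eq_div, Nat.Ioc_filter_dvd_card_eq_div, ← Nat.floor_div_natCast,
    ← Nat.floor_div_natCast] at h2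
  have h3 := congrArg (Nat.cast : ℕ → ℝ) h2
  push_cast at h3
  have a1 := Nat.floor_le (show 0 ≤ u / d by positivity)
  have a2 := Nat.lt_floor_add_one (u / d)
  have a3 := Nat.floor_le (show 0 ≤ (u + L) / d by positivity)
  have a4 := Nat.lt_floor_add_one ((u + L) / d)
  have e : (u + L) / d = u / d + L / d := add_div _ _ _
  rw [abs_le]
  constructor <;> linarith

/-- The rough numbers in `(u, u + L]`. -/
noncomputable def RS (z u L : ℝ) : Finset ℕ := (Ioc ⌊u⌋₊ ⌊u + L⌋₊).filter (Rough z)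

theorem mem_RS {z u L : ℝ} (hu : 0 ≤ u) (hL : 0 ≤ L) {b : ℕ} :
    b ∈ RS z u L ↔ u < b ∧ (b : ℝ) ≤ u + L ∧ Rough z b := by
  rw [RS, mem_filter, mem_Ioc, Nat.floor_lt hu, Nat.le_floor_iff (by linarith), and_assoc]

theorem weight_sum (z : ℝ) (w : Finset ℕ → ℝ) {u L : ℝ} (hu : 0 ≤ u) (hL : 0 ≤ L) :
    |∑ b ∈ Ioc ⌊u⌋₊ ⌊u + L⌋₊, ∑ E ∈ (PL z).powerset, w E * ∏ p ∈ E, (if p ∣ b then (1 : ℝ) else 0) -
      L * ∑ E ∈ (PL z).powerset, w E * ∏ p ∈ E, (1 / (p : ℝ))| ≤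
        ∑ E ∈ (PL z).powerset, |w E| * ∏ p ∈ E, (p : ℝ) := by
  rw [sum_comm, mul_sum, ← sum_sub_distrib]
  refine (abs_sum_le_sum_abs _ _).trans (sum_le_sum fun E hE => ?_)
  have hp : ∀ p ∈ E, p.Prime := fun p hp => prime_of_mem_PL (mem_powerset.1 hE hp)
  have h0 : 0 < ∏ p ∈ E, p := prod_pos fun p h => (hp p h).pos
  have h1 : ∀ b : ℕ, ∏ p ∈ E, (if p ∣ b then (1 : ℝ) else 0) =
      if (∏ p ∈ E, p) ∣ b then 1 else 0 := fun b => by
    rw [prod_ite_zero, prod_const_one]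
    refine if_congr ⟨fun h => prod_primes_dvd b (fun p h => (hp p h).prime) h,
      fun h p hp => (dvd_prod_of_mem _ hp).trans h⟩ rfl rfl
  simp only [h1]
  rw [← mul_sum, sum_boole, mul_left_comm, ← mul_sub, abs_mul]
  refine mul_le_mul_of_nonneg_left (le_trans (le_of_eq ?_) ((mult_count h0 hu hL).trans ?_))
    (abs_nonneg _)
  · rw [Nat.cast_prod, prod_div_distrib, prod_const_one, mul_one_div]
  · rw [← Nat.cast_prod]
    exact Nat.one_le_cast.2 h0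

theorem rough_count : ∃ C1 : ℕ, ∀ s : ℕ, 1 ≤ s → ∀ z : ℝ, 2 ≤ z → ∀ u L : ℝ, 0 ≤ u → 0 ≤ L →
    |((RS z u L).card : ℝ) - L * Vz z| ≤ L * Vz z / 2 ^ s + z ^ (C1 * s) := by
  obtain ⟨C1, H⟩ := t_FL
  refine ⟨C1, fun s hs z hz u L hu hL => ?_⟩
  obtain ⟨lam, Del, h1, h2, h3⟩ := H s hs z hz
  have e1 : ((RS z u L).card : ℝ) = ∑ b ∈ Ioc ⌊u⌋₊ ⌊u + L⌋₊,
      ∏ p ∈ PL z, (1 - if p ∣ b then (1 : ℝ) else 0) := by
    rw [RS, ← sum_boole]
    refine sum_congr rfl fun b _ => ?_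
    split_ifs with h
    · refine (prod_eq_one fun p hp => ?_).symm
      obtain ⟨a1, a2⟩ := (mem_PL (by linarith)).1 hp
      rw [if_neg fun hd => (h p a2 hd).not_ge a1, sub_zero]
    · unfold Rough at h
      push Not at h
      obtain ⟨p, a1, a2, a3⟩ := h
      exact (prod_eq_zero ((mem_PL (by linarith)).2 ⟨a3, a1⟩) (by rw [if_pos a2, sub_self])).symm
  have hb := fun b : ℕ => h2 (fun p => if p ∣ b then (1 : ℝ) else 0) fun p _ => by
    split_ifs <;> norm_num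
  have a1 := sum_le_sum (s := Ioc ⌊u⌋₊ ⌊u + L⌋₊) fun b _ => (hb b).1
  have a2 := sum_le_sum (s := Ioc ⌊u⌋₊ ⌊u + L⌋₊) fun b _ => (hb b).2
  rw [sum_add_distrib] at a2
  rw [← e1] at a1 a2
  obtain ⟨b1, b2⟩ := h2 (fun p => 1 / (p : ℝ)) fun p _ => ⟨by positivity, inv_le_one_of_nat p⟩
  obtain ⟨c1, c2⟩ := abs_le.1 (weight_sum z lam hu hL)
  obtain ⟨d1, d2⟩ := abs_le.1 (weight_sum z Del hu hL)
  simp only [add_mul, sum_add_distrib] at h1
  have f1 := mul_le_mul_of_nonneg_left b1 hL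
  have f2 := mul_le_mul_of_nonneg_left b2 hL
  have f3 := mul_le_mul_of_nonneg_left h3 hL
  have f4 : 0 ≤ ∑ E ∈ (PL z).powerset, |Del E| * ∏ p ∈ E, (p : ℝ) :=
    sum_nonneg fun _ _ => by positivity
  rw [mul_add] at f2
  rw [← mul_div_assoc] at f3
  unfold Vz at f3 ⊢
  rw [abs_le]
  constructor <;> linarith

theorem rough_near {z : ℝ} (hz : 1 ≤ z) {b : ℕ} (b0 : 0 < b) (hb : Rough z b) :
    (b : ℝ) * (1 - 2 * Real.log b / z) ≤ Nat.totient b := by
  have h1 := head_le_totient 0 b b0.ne'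
  have h2 : headProd 0 b = 1 := prod_eq_one fun p hp => by
    obtain ⟨a1, a2, -⟩ := mem_filter.1 hp
    have := mem_range.1 a1
    exact absurd a2.two_le (by omega)
  have h3 : (b.primeFactors.card : ℝ) ≤ 2 * Real.log b := by
    have c1 : 2 ^ b.primeFactors.card ≤ b := (pow_card_le_prod _ (fun p => p) 2 fun p hp =>
      (Nat.prime_of_mem_primeFactors hp).two_le).trans
        (Nat.le_of_dvd b0 (Nat.prod_primeFactors_dvd b))
    have c2 := Real.log_le_log (by positivity) (show (2 : ℝ) ^ b.primeFactors.card ≤ b by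
      exact_mod_cast c1)
    rw [Real.log_pow] at c2
    nlinarith [Real.log_two_gt_d9, Nat.cast_nonneg (α := ℝ) b.primeFactors.card]
  have h4 : tailSum 0 b ≤ 2 * Real.log b / z := by
    refine (sum_le_sum_of_subset_of_nonneg (filter_subset _ _) fun _ _ _ => by positivity).trans
      ((sum_le_card_nsmul _ _ (1 / z) fun p hp => one_div_le_one_div_of_le (by linarith)
        (hb p (Nat.prime_of_mem_primeFactors hp) (Nat.dvd_of_mem_primeFactors hp)).le).trans ?_)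
    rw [nsmul_eq_mul, mul_one_div]
    exact div_le_div_of_nonneg_right h3 (by linarith)
  rw [h2, mul_one] at h1
  exact le_trans (mul_le_mul_of_nonneg_left (by linarith) (Nat.cast_nonneg _)) h1

end Pool.Agent.P.MP_9d1108_nt.Sc
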