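import Pool.Agent.P.MP_9d1108_nt.Sc.Core
import Pool.Agent.P.MP_9d1108_nt.Sc.Rough
import Pool.Agent.P.MP_9d1108_nt.Sc.Dens

/-! The asymptotic count in one short window. -/

set_option autoImplicit false

namespace Pool.Agent.P.MP_9d1108_nt.Sc

open Finset Filter Pool.Agent.P.MP_9d1108_nt.Sw
open Pool.Agent.P.MP_8be758_nt.Avg (PL Rough mem_PL prime_of_mem_PL Vz)

open Classical in
/-- The smooth numbers up to `V`. -/
noncomputable def AS (z V : ℝ) : Finset ℕ :=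
  (Ioc 0 ⌊V⌋₊).filter fun a => ∀ p : ℕ, p.Prime → p ∣ a → (p : ℝ) ≤ z

/-- The integers with `n + φ n` in `(x, x + H]`. -/
noncomputable def WS (x H : ℝ) : Finset ℕ :=
  (DS (x + H)).filter fun n => x < (n : ℝ) + Nat.totient n

/-- The main term. -/
noncomputable def GG (z V : ℝ) : ℝ := Vz z * ∑ a ∈ AS z V, 1 / ((a : ℝ) + Nat.totient a)

theorem mem_WS {x H : ℝ} {n : ℕ} : n ∈ WS x H ↔
    0 < n ∧ x < (n : ℝ) + Nat.totient n ∧ (n : ℝ) + Nat.totient n ≤ x + H := by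
  rw [WS, mem_filter, mem_DS]
  tauto

theorem card_WS {x H : ℝ} (hH : 0 ≤ H) :
    ((WS x H).card : ℝ) = (DS (x + H)).card - (DS x).card := by
  have h := card_filter_add_card_filter_not (s := DS (x + H))
    fun n => x < (n : ℝ) + Nat.totient n
  have e : ((DS (x + H)).filter fun n : ℕ => ¬x < (n : ℝ) + Nat.totient n) = DS x := by
    ext n
    rw [mem_filter, mem_DS, mem_DS, not_lt]
    exact ⟨fun h => ⟨h.1.1, h.2⟩, fun h => ⟨⟨h.1, by linarith [h.2]⟩, h.2⟩⟩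
  rw [e] at h
  rw [← h, WS]
  push_cast
  ring

open Classical in
theorem AS_pos {z V : ℝ} {a : ℕ} (h : a ∈ AS z V) : 0 < a := (mem_Ioc.1 (mem_filter.1 h).1).1

open Classical in
theorem AS_cop {z V : ℝ} {a b : ℕ} (h : a ∈ AS z V) (hb : Rough z b) : a.Coprime b :=
  Nat.coprime_of_dvd fun p hp h1 h2 => (hb p hp h2).not_ge ((mem_filter.1 h).2 p hp h1)

theorem GG_nonneg (z V : ℝ) : 0 ≤ GG z V :=
  mul_nonneg (prod_nonneg fun p _ => sub_nonneg.2 (inv_le_one_of_nat p))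
    (sum_nonneg fun _ _ => by positivity)

open Classical in
theorem sum_RS {z V σ Z : ℝ} (hV : 0 ≤ V) (hZ : 0 ≤ Z)
    (h : ∀ u L : ℝ, 0 ≤ u → 0 ≤ L → |((RS z u L).card : ℝ) - L * Vz z| ≤ L * Vz z * σ + Z)
    {u L : ℝ} (hu : 0 ≤ u) (hL : 0 ≤ L) :
    |∑ a ∈ AS z V, ((RS z (u / (a + Nat.totient a)) (L / (a + Nat.totient a))).card : ℝ) -
      L * GG z V| ≤ L * GG z V * σ + V * Z := by
  have e : L * GG z V = ∑ a ∈ AS z V, L / (a + Nat.totient a) * Vz z := by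
    rw [GG, mul_sum, mul_sum]
    exact sum_congr rfl fun a _ => by ring
  have hc : ((AS z V).card : ℝ) ≤ V := by
    refine le_trans ?_ (Nat.floor_le hV)
    exact_mod_cast (card_filter_le _ _).trans (by rw [Nat.card_Ioc, Nat.sub_zero])
  rw [e, ← sum_sub_distrib, sum_mul]
  refine (abs_sum_le_sum_abs _ _).trans ((sum_le_sum fun a _ =>
    h _ _ (by positivity) (by positivity)).trans ?_)
  rw [sum_add_distrib, sum_const, nsmul_eq_mul]
  gcongr

theorem prod_near {z V y η : ℝ} (hz : 1 ≤ z) (hη : 2 * Real.log y / z ≤ η) {a b : ℕ}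
    (ha : a ∈ AS z V) (b0 : 0 < b) (hb : Rough z b) (hy : (b : ℝ) ≤ y) :
    ((a : ℝ) + Nat.totient a) * b * (1 - η) ≤ (a * b : ℕ) + (Nat.totient (a * b) : ℝ) ∧
      (a * b : ℕ) + (Nat.totient (a * b) : ℝ) ≤ ((a : ℝ) + Nat.totient a) * b := by
  have b1 : (1 : ℝ) ≤ b := by exact_mod_cast b0
  have h1 := rough_near hz b0 hb
  have h2 : 2 * Real.log b / z ≤ η := le_trans (div_le_div_of_nonneg_right
    (by linarith [Real.log_le_log (by linarith) hy]) (by linarith)) hη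
  have h3 : 0 ≤ η := le_trans (div_nonneg (by linarith [Real.log_nonneg b1]) (by linarith)) h2
  have h4 : (b : ℝ) * (1 - η) ≤ Nat.totient b :=
    le_trans (mul_le_mul_of_nonneg_left (by linarith) (by linarith)) h1
  have h5 : (Nat.totient b : ℝ) ≤ b := by exact_mod_cast Nat.totient_le b
  have h6 : (0 : ℝ) ≤ Nat.totient a := Nat.cast_nonneg _
  rw [Nat.totient_mul (AS_cop ha hb)]
  push_cast
  constructor
  · nlinarith [mul_le_mul_of_nonneg_left h4 h6, mul_nonneg h3 (show (0 : ℝ) ≤ a * b by positivity)]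
  · nlinarith [mul_le_mul_of_nonneg_left h5 h6]

theorem win_low {z V x H η : ℝ} (hz : 1 ≤ z) (x0 : 0 < x) (hH : H ≤ x) (η0 : 0 ≤ η)
    (hη : 2 * Real.log (2 * x) / z ≤ η) (h2 : 2 * (η * x) ≤ H) :
    ∑ a ∈ AS z V, ((RS z ((x + 2 * (η * x)) / (a + Nat.totient a))
      ((H - 2 * (η * x)) / (a + Nat.totient a))).card : ℝ) ≤ (WS x H).card := by
  have h3 : 0 ≤ H - 2 * (η * x) := by linarith
  have key : ∀ t ∈ (AS z V).sigma fun a => RS z ((x + 2 * (η * x)) / (a + Nat.totient a))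
      ((H - 2 * (η * x)) / (a + Nat.totient a)),
      t.1 ∈ AS z V ∧ Rough z t.2 ∧ t.1 * t.2 ∈ WS x H := by
    rintro ⟨a, b⟩ ht
    obtain ⟨ha, hb⟩ := mem_sigma.1 ht
    obtain ⟨b1, b2, b3⟩ := (mem_RS (by positivity) (by positivity)).1 hb
    have a1 : (1 : ℝ) ≤ a := by exact_mod_cast AS_pos ha
    have a2 : (0 : ℝ) ≤ Nat.totient a := Nat.cast_nonneg _
    dsimp only at b1 b2 b3 ⊢
    have b0 : 0 < b := Nat.cast_pos.1 (lt_of_le_of_lt (by positivity) b1)
    rw [← add_div, le_div_iff₀' (by linarith)] at b2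
    rw [div_lt_iff₀' (by linarith)] at b1
    have b4 : (0 : ℝ) ≤ b := Nat.cast_nonneg _
    obtain ⟨c1, c2⟩ := prod_near hz hη ha b0 b3 (by nlinarith)
    have c3 : η * (((a : ℝ) + Nat.totient a) * b) ≤ η * (2 * x) :=
      mul_le_mul_of_nonneg_left (by linarith) η0
    exact ⟨ha, b3, mem_WS.2 ⟨mul_pos (AS_pos ha) b0, by linarith, by linarith⟩⟩
  rw [← Nat.cast_sum, ← card_sigma, Nat.cast_le]
  refine card_le_card_of_injOn (fun t => t.1 * t.2) (fun t ht => (key t ht).2.2) ?_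
  rintro ⟨a, b⟩ ht ⟨a', b'⟩ ht' (e : a * b = a' * b')
  obtain ⟨p1, p2, -⟩ := key _ ht
  obtain ⟨q1, q2, -⟩ := key _ ht'
  obtain rfl : a = a' := Nat.dvd_antisymm
    ((AS_cop p1 q2).dvd_of_dvd_mul_right (e ▸ dvd_mul_right a b))
    ((AS_cop q1 p2).dvd_of_dvd_mul_right (e ▸ dvd_mul_right a' b'))
  obtain rfl : b = b' := Nat.eq_of_mul_eq_mul_left (AS_pos p1) e
  rfl

open Classical in
theorem win_up {z V x H η : ℝ} (hz : 1 ≤ z) (x0 : 0 < x) (H0 : 0 ≤ H) (hH : H ≤ x) (η0 : 0 ≤ η)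
    (η1 : η ≤ 1 / 2) (hη : 2 * Real.log (2 * x) / z ≤ η) :
    (((WS x H).filter (Sv z V)).card : ℝ) ≤ ∑ a ∈ AS z V, ((RS z (x / (a + Nat.totient a))
      ((H + 4 * (η * x)) / (a + Nat.totient a))).card : ℝ) := by
  have key : (WS x H).filter (Sv z V) ⊆ (AS z V).biUnion fun a => (RS z (x / (a + Nat.totient a))
      ((H + 4 * (η * x)) / (a + Nat.totient a))).image (a * ·) := fun n hn => by
    obtain ⟨h1, k, E, B, k0, k1, hE, hB, rfl, hV⟩ := mem_filter.1 hn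
    obtain ⟨n0, h2, h3⟩ := mem_WS.1 h1
    have hr : Rough z (∏ p ∈ B, p) := fun p hp hd => by
      obtain ⟨q, hq, e⟩ := (hp.prime.dvd_finsetProd_iff _).1 hd
      rw [(Nat.prime_dvd_prime_iff_eq hp (hB q hq).1).1 e]
      exact (hB q hq).2
    have ha : k ^ 2 * ∏ p ∈ E, p ∈ AS z V := by
      refine mem_filter.2 ⟨mem_Ioc.2 ⟨Nat.pos_of_mul_pos_right n0, Nat.le_floor hV⟩,
        fun p hp h4 => ?_⟩
      rcases hp.dvd_mul.1 h4 with h5 | h5
      · exact le_trans (by exact_mod_cast Nat.le_of_dvd k0 (hp.dvd_of_dvd_pow h5)) k1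
      · obtain ⟨q, hq, e⟩ := (hp.prime.dvd_finsetProd_iff _).1 h5
        obtain ⟨q1, q2⟩ := (mem_PL (by linarith)).1 (hE hq)
        rwa [(Nat.prime_dvd_prime_iff_eq hp q2).1 e]
    generalize k ^ 2 * ∏ p ∈ E, p = a at *
    generalize ∏ p ∈ B, p = b at *
    have b0 : 0 < b := Nat.pos_of_mul_pos_left n0
    have a1 : (1 : ℝ) ≤ a := by exact_mod_cast AS_pos ha
    have a2 : (0 : ℝ) ≤ Nat.totient a := Nat.cast_nonneg _
    have b4 : (b : ℝ) ≤ (a * b : ℕ) := by exact_mod_cast Nat.le_mul_of_pos_left _ (AS_pos ha)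
    obtain ⟨c1, c2⟩ := prod_near hz hη ha b0 hr
      (by linarith [Nat.cast_nonneg (α := ℝ) (Nat.totient (a * b))])
    have c0 : 0 ≤ ((a : ℝ) + Nat.totient a) * b := by positivity
    have c3 : η * (((a : ℝ) + Nat.totient a) * b) ≤ η * (4 * x) :=
      mul_le_mul_of_nonneg_left (by nlinarith) η0
    refine mem_biUnion.2 ⟨a, ha, mem_image.2 ⟨b, (mem_RS (by positivity) (by positivity)).2
      ⟨?_, ?_, hr⟩, rfl⟩⟩
    · rw [div_lt_iff₀' (by linarith)]
      linarith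
    · rw [← add_div, le_div_iff₀' (by linarith)]
      linarith
  rw [← Nat.cast_sum, Nat.cast_le]
  exact (card_le_card key).trans (card_biUnion_le.trans (sum_le_sum fun a _ => card_image_le))

theorem cover_le {x H d A : ℝ} (d0 : 0 < d) (A0 : 0 ≤ A) (hd : d / 2 ≤ H) (T : Finset ℕ)
    (hT : T ⊆ WS x H) (h : ∀ (X : ℝ) (S : Finset ℕ), x ≤ X → X ≤ x + H → S ⊆ T →
      (∀ n ∈ S, X ≤ n + (Nat.totient n : ℝ) ∧ n + (Nat.totient n : ℝ) ≤ X + d) →
        (S.card : ℝ) ≤ A * d) : (T.card : ℝ) ≤ 3 * A * H := by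
  have h2 : T ⊆ (range (⌊H / d⌋₊ + 1)).biUnion fun i => T.filter fun n =>
      x + i * d ≤ n + (Nat.totient n : ℝ) ∧ n + (Nat.totient n : ℝ) ≤ x + i * d + d :=
    fun n hn => by
      obtain ⟨-, a, b⟩ := mem_WS.1 (hT hn)
      have c : 0 ≤ (n + (Nat.totient n : ℝ) - x) / d := div_nonneg (by linarith) d0.le
      have d1 := (le_div_iff₀ d0).1 (Nat.floor_le c)
      have d2 := (div_lt_iff₀ d0).1 (Nat.lt_floor_add_one ((n + (Nat.totient n : ℝ) - x) / d))
      exact mem_biUnion.2 ⟨⌊(n + (Nat.totient n : ℝ) - x) / d⌋₊, mem_range.2 (Nat.lt_succ_of_le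
        (Nat.floor_le_floor (div_le_div_of_nonneg_right (by linarith) d0.le))),
        mem_filter.2 ⟨hn, by linarith, by linarith⟩⟩
  have h3 := (Nat.cast_le (α := ℝ)).2 ((card_le_card h2).trans card_biUnion_le)
  have h4 : (⌊H / d⌋₊ : ℝ) * d ≤ H :=
    (le_div_iff₀ d0).1 (Nat.floor_le (div_nonneg (by linarith) d0.le))
  rw [Nat.cast_sum] at h3
  refine (h3.trans (sum_le_card_nsmul _ _ (A * d) fun i hi => h (x + i * d) _
    (le_add_of_nonneg_right (by positivity)) ?_ (filter_subset _ _)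
      fun n hn => (mem_filter.1 hn).2)).trans ?_
  · have : (i : ℝ) ≤ ⌊H / d⌋₊ := by exact_mod_cast Nat.lt_succ_iff.1 (mem_range.1 hi)
    nlinarith
  · rw [card_range, nsmul_eq_mul]
    push_cast
    nlinarith [mul_le_mul_of_nonneg_left (show (⌊H / d⌋₊ : ℝ) * d + d ≤ 3 * H by linarith) A0]

theorem window {ε : ℝ} (hε : 0 < ε) : ∀ᶠ l : ℝ in atTop, ∃ G : ℝ, ∀ x δ H : ℝ,
    x = Real.exp (l ^ 5) → δ = Real.exp (-l ^ 3) → x * δ / 2 ≤ H → H ≤ x →
      |((WS x H).card : ℝ) - G * H| ≤ ε * H := by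
  classical
  obtain ⟨e, he⟩ : ∃ e, e = min (1 / 4) (ε / 230) := ⟨_, rfl⟩
  have e0 : 0 < e := he ▸ lt_min (by norm_num) (by positivity)
  have e1 : e ≤ 1 / 4 := he ▸ min_le_left _ _
  have e2 : e ≤ ε / 230 := he ▸ min_le_right _ _
  obtain ⟨M, M0, hM⟩ := core2 (K := 1 / e) (by rw [le_one_div one_pos e0]; linarith)
  obtain ⟨C1, hC⟩ := rough_count
  obtain ⟨s, hs⟩ := exists_pow_lt_of_lt_one e0 (show (1 / 2 : ℝ) < 1 by norm_num)
  have s1 : 1 ≤ s := Nat.pos_of_ne_zero (by rintro rfl; rw [pow_zero] at hs; linarith)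
  obtain ⟨f, hf⟩ := mul_of (f := Nat.totient) (fun _ _ h => Nat.totient_mul h)
    (.inl fun _ hp => by rw [Nat.totient_prime hp, Nat.sub_add_cancel hp.pos]) fun _ => le_rfl
  filter_upwards [hM, eventually_ge_atTop (8 / e), eventually_ge_atTop 1,
    eventually_ge_atTop (4 * ((C1 * s : ℕ) * M + 1))] with l ⟨z, z1, z2, hz⟩ l1 l2 l3
  refine ⟨GG z (Real.exp (l ^ 5 / 2)), ?_⟩
  obtain ⟨V, hV⟩ : ∃ V, V = Real.exp (l ^ 5 / 2) := ⟨_, rfl⟩
  rw [← hV] at hz ⊢
  have p3 : l ≤ l ^ 3 := le_self_pow₀ l2 (by norm_num)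
  have p5 : l ≤ l ^ 5 := le_self_pow₀ l2 (by norm_num)
  have z3 : 2 ≤ z := by linarith [Real.add_one_le_exp (2 * l ^ 3)]
  rw [div_le_iff₀ e0] at l1
  have hS := fun u L => sum_RS (z := z) (V := V) (σ := e) (Z := z ^ (C1 * s)) (u := u) (L := L)
    (hV ▸ (Real.exp_pos _).le) (by positivity) fun u L hu hL => (hC s s1 z z3 u L hu hL).trans (by
      have : 0 ≤ L * Vz z :=
        mul_nonneg hL (prod_nonneg fun p _ => sub_nonneg.2 (inv_le_one_of_nat p))
      rw [div_eq_mul_one_div, ← one_div_pow]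
      gcongr)
  have G0 := GG_nonneg z V
  generalize GG z V = G at hS G0 ⊢
  intro x δ H hx hδ H1 H2
  have x0 : 0 < x := hx ▸ Real.exp_pos _
  have δ0 : 0 < δ := hδ ▸ Real.exp_pos _
  have δ1 : δ ≤ 1 := hδ ▸ Real.exp_le_one_iff.2 (by linarith)
  have hη : 2 * Real.log (2 * x) / z ≤ e * δ := by
    have a1 : Real.log (2 * x) ≤ 2 * l ^ 5 := by
      rw [Real.log_mul (by norm_num) x0.ne', hx, Real.log_exp]
      linarith [Real.log_two_lt_d9]
    have a2 := Real.pow_div_factorial_le_exp (l ^ 3) (by positivity) 2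
    rw [← pow_mul, pow_succ] at a2
    norm_num at a2
    have a3 : δ * Real.exp (2 * l ^ 3) = Real.exp (l ^ 3) := by
      rw [hδ, ← Real.exp_add]
      ring_nf
    rw [div_le_iff₀ (by linarith)]
    calc 2 * Real.log (2 * x) ≤ l ^ 5 * 8 / 2 := by linarith
      _ ≤ l ^ 5 * (l * e) / 2 := by gcongr
      _ = e * (l ^ 5 * l / 2) := by ring
      _ ≤ e * (δ * Real.exp (2 * l ^ 3)) := by rw [a3]; gcongr
      _ ≤ e * (δ * z) := by gcongr
      _ = _ := by ring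
  have hZ : V * z ^ (C1 * s) ≤ e * (x * δ) := by
    have a1 : z ^ (C1 * s) ≤ Real.exp ((C1 * s : ℕ) * (M * l ^ 3)) := by
      rw [Real.exp_nat_mul]
      gcongr
    have a2 : 4 * ((C1 * s : ℕ) * M + 1) * l ^ 3 ≤ l ^ 2 * l ^ 3 := by
      gcongr
      nlinarith
    have a3 : 1 ≤ e * Real.exp (l ^ 5 / 4) := by nlinarith [Real.add_one_le_exp (l ^ 5 / 4)]
    calc V * z ^ (C1 * s) ≤ V * Real.exp ((C1 * s : ℕ) * (M * l ^ 3)) * (e * Real.exp (l ^ 5 / 4)) :=
          le_trans (by rw [hV]; gcongr) (le_mul_of_one_le_right (by rw [hV]; positivity) a3)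
      _ = e * Real.exp (l ^ 5 / 2 + (C1 * s : ℕ) * (M * l ^ 3) + l ^ 5 / 4) := by
          rw [hV, Real.exp_add, Real.exp_add]; ring
      _ ≤ _ := by
          rw [hx, hδ, ← Real.exp_add]
          exact mul_le_mul_of_nonneg_left (Real.exp_le_exp.2 (by linarith)) e0.le
  have xδ : 0 < x * δ := by positivity
  have η0 : 0 ≤ e * δ := by positivity
  have η1 : e * δ ≤ 1 / 4 := by nlinarith
  have η2 : e * δ * x ≤ 2 * (e * H) := by nlinarith
  have η3 : e * δ * x ≤ x / 4 := by nlinarith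
  have H0 : 0 < H := by linarith
  have eH : e * H ≤ H / 4 := by nlinarith
  have low := fun H' (a : H' ≤ x) (b : 2 * (e * δ * x) ≤ H') =>
    (abs_le.1 (hS (x + 2 * (e * δ * x)) (H' - 2 * (e * δ * x)) (by positivity)
      (by linarith))).1.trans (sub_le_sub_right (win_low (by linarith) x0 a η0 hη b) _)
  have G1 : G ≤ 12 := by
    have a1 := low x le_rfl (by linarith)
    have a2 : ((WS x x).card : ℝ) ≤ x + x := by
      refine le_trans ?_ (Nat.floor_le (by linarith))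
      exact_mod_cast (card_filter_le _ _).trans ((card_filter_le _ _).trans
        (by rw [Nat.card_Ioc, Nat.sub_zero]))
    have a3 : x / 2 * G ≤ (x - 2 * (e * δ * x)) * G := by gcongr; linarith
    have a4 : (x - 2 * (e * δ * x)) * G * e ≤ (x - 2 * (e * δ * x)) * G * (1 / 2) := by
      have : 0 ≤ x - 2 * (e * δ * x) := by linarith
      gcongr
      linarith
    refine le_of_mul_le_mul_left ?_ x0
    nlinarith
  have a1 := low H H2 (by nlinarith)
  have a2 := (win_up (V := V) (by linarith) x0 H0.le H2 η0 (by linarith) hη).trans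
    (sub_le_iff_le_add'.1 (abs_le.1 (hS x (H + 4 * (e * δ * x)) x0.le (by positivity))).2)
  have a3 := cover_le xδ (show 0 ≤ 8 * e by positivity) H1 ((WS x H).filter fun n => ¬Sv z V n)
    (filter_subset _ _) fun X S b1 b2 b3 b4 => by
      have := hz Nat.totient f x δ X S hf hx hδ b1 (by linarith) fun n hn =>
        ⟨(mem_WS.1 (mem_filter.1 (b3 hn)).1).1, (b4 n hn).1, (b4 n hn).2, (mem_filter.1 (b3 hn)).2⟩
      rw [one_div, inv_mul_le_iff₀ e0] at this
      linarith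
  have a4 := congrArg (Nat.cast : ℕ → ℝ) (card_filter_add_card_filter_not (s := WS x H) (Sv z V))
  push_cast at a4
  have b1 : e * δ * x * G ≤ 2 * (e * H) * 12 := by gcongr
  have b2 : e * δ * x * G * e ≤ 2 * (e * H) * 12 * 1 := by gcongr; linarith
  have b3 : e * H * G ≤ e * H * 12 := by gcongr
  have b4 : 0 ≤ e * δ * x * G * e := by positivity
  have b5 : e * H ≤ ε / 230 * H := by gcongr
  have b6 : 0 ≤ e * H := by positivity
  rw [abs_le]
  constructor <;> nlinarith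

end Pool.Agent.P.MP_9d1108_nt.Sc
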